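import Pool.Agent.Helper66.JC.GlueD

/-!
# Joint class theorem (MP_a499ba_nt): the four prescribed limits

`main4D` is deduced from `glueD` with the directions `(1, 0)`, `(-1, 0)`, `(0, 1)`, `(0, -1)` in turn.
-/

set_option autoImplicit false

namespace Pool.Agent.Helper51.JC

open Finset Filter Pool.Agent.Helper92.GB Pool.Agent.Helper66 Pool.Agent.Helper66.MB Pool.Agent.Helper66.JC

theorem exists_window {X : ℕ → ℕ} (hX : StrictMono X) (J m : ℕ) (h : X J ≤ m) :
    ∃ j, J ≤ j ∧ X j ≤ m ∧ m < X (j + 1) := by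
  classical
  have hle : ∀ j, j ≤ X j := fun j => hX.le_apply
  have hJm : J ≤ m := (hle J).trans h
  refine ⟨Nat.findGreatest (fun j => X j ≤ m) m, Nat.le_findGreatest hJm h,
    Nat.findGreatest_spec (P := fun j => X j ≤ m) hJm h, ?_⟩
  by_contra hcon
  rw [not_lt] at hcon
  have h1 : Nat.findGreatest (fun j => X j ≤ m) m + 1 ≤ m := (hle _).trans hcon
  have h2 := Nat.le_findGreatest (P := fun j => X j ≤ m) h1 hcon
  omega

/-- The upper limit of a quotient from the upper bounds on the windows and the large values. -/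
theorem limsup_quot {φ : ℝ → ℝ} (hφ : Adm φ) (F : ℕ → ℝ) {X : ℕ → ℕ} (hX : StrictMono X) (B : EReal) (hB : 0 ≤ B)
    (h1 : ∀ c : ℝ, B < c → ∃ J : ℕ, ∀ j, J ≤ j → ∀ x : ℕ, X j ≤ x → x < X (j + 1) →
      0 < Real.sqrt x * φ x → F x ≤ c * (Real.sqrt x * φ x))
    (h2 : ∀ c : ℝ, (c : EReal) < B → ∀ J : ℕ, ∃ j, J ≤ j ∧ ∃ x : ℕ, X j ≤ x ∧
      (0 < Real.sqrt x * φ x → c * (Real.sqrt x * φ x) ≤ F x)) :
    limsup (fun x : ℝ => ((F ⌊x⌋₊ / (Real.sqrt x * φ x) : ℝ) : EReal)) atTop = B := by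
  obtain ⟨x₁, hx₁⟩ := hφ.mono
  obtain ⟨x₂, hx₂⟩ := (hφ.top.eventually_gt_atTop 0).exists_forall_of_atTop
  have hXle : ∀ j, j ≤ X j := fun j => hX.le_apply
  -- upper bounds
  have hU : ∀ c : ℝ, B < c → ∀ᶠ x : ℝ in atTop, F ⌊x⌋₊ / (Real.sqrt x * φ x) ≤ c := by
    intro c hc
    have hc0 : 0 < c := by exact_mod_cast lt_of_le_of_lt hB hc
    obtain ⟨J, hJ⟩ := h1 c hc
    filter_upwards [eventually_ge_atTop (X J : ℝ), eventually_ge_atTop (x₁ + 1),
      eventually_ge_atTop (x₂ + 1), eventually_ge_atTop 1] with x ha hb' hc' hd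
    have hx0 : 0 < x := by linarith
    have hfl : x - 1 < (⌊x⌋₊ : ℝ) := Nat.sub_one_lt_floor x
    have hfl' : (⌊x⌋₊ : ℝ) ≤ x := Nat.floor_le hx0.le
    have hfl1 : (1 : ℝ) ≤ (⌊x⌋₊ : ℝ) := by
      exact_mod_cast Nat.le_floor (by exact_mod_cast hd)
    obtain ⟨j, hj, hj1, hj2⟩ := exists_window hX J ⌊x⌋₊ (Nat.le_floor ha)
    have hel : 0 < φ x := hx₂ x (by linarith)
    have hel' : 0 < φ (⌊x⌋₊ : ℝ) := hx₂ _ (by linarith)
    have hmono : φ (⌊x⌋₊ : ℝ) ≤ φ x := hx₁ _ _ (by linarith) hfl'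
    have hs : Real.sqrt (⌊x⌋₊ : ℝ) ≤ Real.sqrt x := Real.sqrt_le_sqrt hfl'
    have hs0 : 0 < Real.sqrt (⌊x⌋₊ : ℝ) := Real.sqrt_pos.mpr (by linarith)
    have hsx : 0 < Real.sqrt x := Real.sqrt_pos.mpr hx0
    have hM := hJ j hj _ hj1 hj2 (mul_pos hs0 hel')
    rw [div_le_iff₀ (mul_pos hsx hel)]
    calc F ⌊x⌋₊ ≤ c * (Real.sqrt (⌊x⌋₊ : ℝ) * φ (⌊x⌋₊ : ℝ)) := hM
      _ ≤ c * (Real.sqrt x * φ x) := by gcongr
  -- lower bounds
  have hL : ∀ c : ℝ, (c : EReal) < B → ∃ᶠ x : ℝ in atTop, c ≤ F ⌊x⌋₊ / (Real.sqrt x * φ x) := by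
    intro c hc
    rw [frequently_atTop]
    intro a
    obtain ⟨m, hm⟩ := exists_nat_ge (max a x₂)
    obtain ⟨j, hj1, x, hx, hx'⟩ := h2 c hc (max m 1)
    have hjx : (m : ℝ) ≤ x := by exact_mod_cast ((le_max_left _ _).trans (hj1.trans (hXle j))).trans hx
    have h1x : (1 : ℝ) ≤ x := by exact_mod_cast ((le_max_right m 1).trans (hj1.trans (hXle j))).trans hx
    have hel : 0 < φ x := hx₂ x ((le_max_right _ _).trans (hm.trans hjx))
    have hsx : 0 < Real.sqrt (x : ℝ) := Real.sqrt_pos.mpr (by linarith)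
    refine ⟨(x : ℝ), (le_max_left _ _).trans (hm.trans hjx), ?_⟩
    rw [Nat.floor_natCast, le_div_iff₀ (mul_pos hsx hel)]
    exact hx' (mul_pos hsx hel)
  refine le_antisymm ?_ ?_
  · rw [← EReal.le_of_forall_lt_iff_le]
    intro z hz
    refine limsup_le_of_le (by isBoundedDefault) ((hU z hz).mono fun x hx => ?_)
    exact EReal.coe_le_coe_iff.mpr hx
  · rw [← EReal.ge_of_forall_gt_iff_ge]
    intro z hz
    refine le_limsup_of_frequently_le ((hL z hz).mono fun x hx => ?_)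
    exact EReal.coe_le_coe_iff.mpr hx

/-- The same for the lower limit. -/
theorem liminf_quot {φ : ℝ → ℝ} (hφ : Adm φ) (F : ℕ → ℝ) {X : ℕ → ℕ} (hX : StrictMono X) (B : EReal) (hB : 0 ≤ B)
    (h1 : ∀ c : ℝ, B < c → ∃ J : ℕ, ∀ j, J ≤ j → ∀ x : ℕ, X j ≤ x → x < X (j + 1) →
      0 < Real.sqrt x * φ x → -F x ≤ c * (Real.sqrt x * φ x))
    (h2 : ∀ c : ℝ, (c : EReal) < B → ∀ J : ℕ, ∃ j, J ≤ j ∧ ∃ x : ℕ, X j ≤ x ∧
      (0 < Real.sqrt x * φ x → c * (Real.sqrt x * φ x) ≤ -F x)) :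
    liminf (fun x : ℝ => ((F ⌊x⌋₊ / (Real.sqrt x * φ x) : ℝ) : EReal)) atTop = -B := by
  have h := limsup_quot hφ (fun n => -F n) hX B hB h1 h2
  have he : (fun x : ℝ => ((F ⌊x⌋₊ / (Real.sqrt x * φ x) : ℝ) : EReal)) =
      -(fun x : ℝ => (((-F ⌊x⌋₊) / (Real.sqrt x * φ x) : ℝ) : EReal)) := by
    funext x
    rw [Pi.neg_apply, neg_div, EReal.coe_neg, neg_neg]
  rw [he, EReal.liminf_neg, h]

/-- The sizes of the stages for the limit `B`. -/
noncomputable def bs (B : EReal) (j : ℕ) : ℝ := if B = ⊤ then (j : ℝ) + 1 else B.toReal + 1 / ((j : ℝ) + 1)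

/-- The errors. -/
noncomputable def ds (j : ℕ) : ℝ := 1 / (2 * ((j : ℝ) + 1))

theorem ds_pos (j : ℕ) : 0 < ds j := by
  unfold ds
  positivity

theorem bs_pos {B : EReal} (hB : 0 ≤ B) (j : ℕ) : 0 < bs B j := by
  unfold bs
  split_ifs with h
  · positivity
  · have : 0 ≤ B.toReal := EReal.toReal_nonneg hB
    positivity

theorem ds_small {c : ℝ} (hc : 0 < c) : ∃ J : ℕ, ∀ j, J ≤ j → ds j ≤ c := by
  obtain ⟨J, hJ⟩ := exists_nat_ge (1 / c)
  refine ⟨J, fun j hj => ?_⟩
  have h3 : (J : ℝ) ≤ j := by exact_mod_cast hj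
  rw [div_le_iff₀ hc] at hJ
  unfold ds
  rw [div_le_iff₀ (by positivity)]
  nlinarith

theorem bs_up {B : EReal} (hB : 0 ≤ B) (c : ℝ) (hc : B < c) : ∃ J : ℕ, ∀ j, J ≤ j → bs B j + ds j ≤ c := by
  induction B with
  | bot => exact absurd hB (by simp)
  | top => exact absurd hc (by simp)
  | coe β =>
    have hc' : β < c := EReal.coe_lt_coe_iff.mp hc
    obtain ⟨J, hJ⟩ := exists_nat_ge (2 / (c - β))
    refine ⟨J, fun j hj => ?_⟩
    have h3 : (J : ℝ) ≤ j := by exact_mod_cast hj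
    have h0 : 0 < c - β := by linarith
    have h4 : 2 ≤ (c - β) * ((j : ℝ) + 1) := by
      rw [div_le_iff₀ h0] at hJ
      nlinarith
    have h5 : 1 / ((j : ℝ) + 1) + 1 / (2 * ((j : ℝ) + 1)) ≤ c - β := by
      have hj0 : (0 : ℝ) < (j : ℝ) + 1 := by positivity
      have : 1 / ((j : ℝ) + 1) + 1 / (2 * ((j : ℝ) + 1)) = (3 / 2) / ((j : ℝ) + 1) := by
        field_simp
        norm_num
      rw [this, div_le_iff₀ hj0]
      linarith
    unfold bs ds
    rw [if_neg (EReal.coe_ne_top β), EReal.toReal_coe]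
    linarith

theorem bs_low {B : EReal} (hB : 0 ≤ B) (c : ℝ) (hc : (c : EReal) < B) :
    ∃ J : ℕ, ∀ j, J ≤ j → c ≤ bs B j - ds j := by
  have h6 : ∀ j : ℕ, 1 / (2 * ((j : ℝ) + 1)) ≤ 1 / ((j : ℝ) + 1) := by
    intro j
    apply one_div_le_one_div_of_le (by positivity)
    have : (0 : ℝ) ≤ j := Nat.cast_nonneg j
    linarith
  induction B with
  | bot => exact absurd hB (by simp)
  | top =>
    obtain ⟨J, hJ⟩ := exists_nat_ge c
    refine ⟨J, fun j hj => ?_⟩
    have h3 : (J : ℝ) ≤ j := by exact_mod_cast hj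
    have h4 : 1 / (2 * ((j : ℝ) + 1)) ≤ 1 := by
      rw [div_le_one (by positivity)]
      have : (0 : ℝ) ≤ j := Nat.cast_nonneg j
      linarith
    unfold bs ds
    rw [if_pos rfl]
    linarith
  | coe β =>
    have hc' : c < β := EReal.coe_lt_coe_iff.mp hc
    refine ⟨0, fun j _ => ?_⟩
    unfold bs ds
    rw [if_neg (EReal.coe_ne_top β), EReal.toReal_coe]
    have := h6 j
    linarith

/-- The two hypotheses of `limsup_quot` for one of the four directions, which is used at the stages `j` with `j % 4 = k`. -/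
theorem quot_hyp {φ : ℝ → ℝ} (F : ℕ → ℝ) (X : ℕ → ℕ) (B : EReal) (hB : 0 ≤ B) (k : ℕ) (hk : k < 4)
    (h1 : ∀ j x : ℕ, X j ≤ x → x < X (j + 1) → j % 4 = k → F x ≤ (bs B j + ds j) * (Real.sqrt x * φ x))
    (h2 : ∀ j x : ℕ, X j ≤ x → x < X (j + 1) → j % 4 ≠ k → F x ≤ ds j * (Real.sqrt x * φ x))
    (h3 : ∀ j : ℕ, j % 4 = k → ∃ x : ℕ, X j ≤ x ∧ (bs B j - ds j) * (Real.sqrt x * φ x) ≤ F x) :
    (∀ c : ℝ, B < c → ∃ J : ℕ, ∀ j, J ≤ j → ∀ x : ℕ, X j ≤ x → x < X (j + 1) →
      0 < Real.sqrt x * φ x → F x ≤ c * (Real.sqrt x * φ x)) ∧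
    (∀ c : ℝ, (c : EReal) < B → ∀ J : ℕ, ∃ j, J ≤ j ∧ ∃ x : ℕ, X j ≤ x ∧
      (0 < Real.sqrt x * φ x → c * (Real.sqrt x * φ x) ≤ F x)) := by
  constructor
  · intro c hc
    have hc0 : 0 < c := by exact_mod_cast lt_of_le_of_lt hB hc
    obtain ⟨J₁, hJ₁⟩ := bs_up hB c hc
    obtain ⟨J₂, hJ₂⟩ := ds_small hc0
    refine ⟨max J₁ J₂, fun j hj x hx1 hx2 hpos => ?_⟩
    by_cases h : j % 4 = k
    · have h4 := hJ₁ j ((le_max_left _ _).trans hj)
      exact (h1 j x hx1 hx2 h).trans (by gcongr)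
    · have h4 := hJ₂ j ((le_max_right _ _).trans hj)
      exact (h2 j x hx1 hx2 h).trans (by gcongr)
  · intro c hc J
    obtain ⟨J₁, hJ₁⟩ := bs_low hB c hc
    obtain ⟨x, hx, hx'⟩ := h3 (4 * max J J₁ + k) (by omega)
    have hJJ : max J J₁ ≤ 4 * max J J₁ + k := by omega
    refine ⟨4 * max J J₁ + k, (le_max_left _ _).trans hJJ, x, hx, fun hpos => ?_⟩
    have h4 := hJ₁ (4 * max J J₁ + k) ((le_max_right _ _).trans hJJ)
    exact le_trans (by gcongr) hx'

/-- `a` and `b` are the two values for `Mf`, `c` and `d` those for `Lf`. -/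
theorem main4D {φ : ℝ → ℝ} (hφ : Adm φ) (a b c d : EReal) (ha : 0 ≤ a) (hb : 0 ≤ b) (hc : 0 ≤ c) (hd : 0 ≤ d)
    (N₀ : ℕ) (s : ℕ → ℤ) (hs : ∀ n, s n = 1 ∨ s n = -1) :
    ∃ f : ℕ → ℤ, (∀ n, f n = 1 ∨ f n = -1) ∧ (∀ p : ℕ, p.Prime → p ≤ N₀ → f p = s p) ∧ PS f ∧
      liminf (fun x : ℝ => ((Mf f ⌊x⌋₊ / (Real.sqrt x * φ x) : ℝ) : EReal)) atTop = -a ∧
      limsup (fun x : ℝ => ((Mf f ⌊x⌋₊ / (Real.sqrt x * φ x) : ℝ) : EReal)) atTop = b ∧
      liminf (fun x : ℝ => ((GL.Lf f ⌊x⌋₊ / (Real.sqrt x * φ x) : ℝ) : EReal)) atTop = -c ∧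
      limsup (fun x : ℝ => ((GL.Lf f ⌊x⌋₊ / (Real.sqrt x * φ x) : ℝ) : EReal)) atTop = d := by
  obtain ⟨f, X, hf, hfs, hPS, hX, hup, hlo⟩ := glueD hφ
    (fun j => if j % 4 = 0 then 1 else if j % 4 = 1 then -1 else 0)
    (fun j => if j % 4 = 2 then 1 else if j % 4 = 3 then -1 else 0)
    (fun j => if j % 4 = 0 then bs b j else if j % 4 = 1 then bs a j else if j % 4 = 2 then bs d j else bs c j)
    ds
    (by
      intro j
      rcases (by omega : j % 4 = 0 ∨ j % 4 = 1 ∨ j % 4 = 2 ∨ j % 4 = 3) with h | h | h | h <;> simp [h])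
    (by
      intro j
      split_ifs
      · exact bs_pos hb j
      · exact bs_pos ha j
      · exact bs_pos hd j
      · exact bs_pos hc j)
    ds_pos N₀ s hs
  refine ⟨f, hf, hfs, hPS, ?_, ?_, ?_, ?_⟩
  · have h := quot_hyp (φ := φ) (fun n => -Mf f n) X a ha 1 (by norm_num)
      (fun j x hx1 hx2 hj => by
        have h0 := (hup j x hx1 hx2).2.1
        simp only [hj, comp] at h0
        norm_num at h0
        linarith)
      (fun j x hx1 hx2 hj => by
        obtain ⟨h01, h02, h03⟩ := hup j x hx1 hx2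
        rcases (by omega : j % 4 = 0 ∨ j % 4 = 2 ∨ j % 4 = 3) with h | h | h
        · simp only [h, comp] at h01
          norm_num at h01
          linarith
        · simp only [h, comp] at h03
          norm_num at h03
          have := (abs_le.mp h03).1
          linarith
        · simp only [h, comp] at h03
          norm_num at h03
          have := (abs_le.mp h03).1
          linarith)
      (fun j hj => by
        obtain ⟨x, hx1, -, hx2⟩ := hlo j
        refine ⟨x, hx1, ?_⟩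
        simp only [hj, comp] at hx2
        norm_num at hx2
        linarith)
    exact liminf_quot hφ (Mf f) hX a ha h.1 h.2
  · have h := quot_hyp (φ := φ) (Mf f) X b hb 0 (by norm_num)
      (fun j x hx1 hx2 hj => by
        have h0 := (hup j x hx1 hx2).2.1
        simp only [hj, comp] at h0
        norm_num at h0
        linarith)
      (fun j x hx1 hx2 hj => by
        obtain ⟨h01, h02, h03⟩ := hup j x hx1 hx2
        rcases (by omega : j % 4 = 1 ∨ j % 4 = 2 ∨ j % 4 = 3) with h | h | h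
        · simp only [h, comp] at h01
          norm_num at h01
          linarith
        · simp only [h, comp] at h03
          norm_num at h03
          have := (abs_le.mp h03).2
          linarith
        · simp only [h, comp] at h03
          norm_num at h03
          have := (abs_le.mp h03).2
          linarith)
      (fun j hj => by
        obtain ⟨x, hx1, -, hx2⟩ := hlo j
        refine ⟨x, hx1, ?_⟩
        simp only [hj, comp] at hx2
        norm_num at hx2
        linarith)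
    exact limsup_quot hφ (Mf f) hX b hb h.1 h.2
  · have h := quot_hyp (φ := φ) (fun n => -GL.Lf f n) X c hc 3 (by norm_num)
      (fun j x hx1 hx2 hj => by
        have h0 := (hup j x hx1 hx2).2.1
        simp only [hj, comp] at h0
        norm_num at h0
        linarith)
      (fun j x hx1 hx2 hj => by
        obtain ⟨h01, h02, h03⟩ := hup j x hx1 hx2
        rcases (by omega : j % 4 = 2 ∨ j % 4 = 0 ∨ j % 4 = 1) with h | h | h
        · simp only [h, comp] at h01
          norm_num at h01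
          linarith
        · simp only [h, comp] at h03
          norm_num at h03
          have := (abs_le.mp h03).1
          linarith
        · simp only [h, comp] at h03
          norm_num at h03
          have := (abs_le.mp h03).1
          linarith)
      (fun j hj => by
        obtain ⟨x, hx1, -, hx2⟩ := hlo j
        refine ⟨x, hx1, ?_⟩
        simp only [hj, comp] at hx2
        norm_num at hx2
        linarith)
    exact liminf_quot hφ (GL.Lf f) hX c hc h.1 h.2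
  · have h := quot_hyp (φ := φ) (GL.Lf f) X d hd 2 (by norm_num)
      (fun j x hx1 hx2 hj => by
        have h0 := (hup j x hx1 hx2).2.1
        simp only [hj, comp] at h0
        norm_num at h0
        linarith)
      (fun j x hx1 hx2 hj => by
        obtain ⟨h01, h02, h03⟩ := hup j x hx1 hx2
        rcases (by omega : j % 4 = 3 ∨ j % 4 = 0 ∨ j % 4 = 1) with h | h | h
        · simp only [h, comp] at h01
          norm_num at h01
          linarith
        · simp only [h, comp] at h03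
          norm_num at h03
          have := (abs_le.mp h03).2
          linarith
        · simp only [h, comp] at h03
          norm_num at h03
          have := (abs_le.mp h03).2
          linarith)
      (fun j hj => by
        obtain ⟨x, hx1, -, hx2⟩ := hlo j
        refine ⟨x, hx1, ?_⟩
        simp only [hj, comp] at hx2
        norm_num at hx2
        linarith)
    exact limsup_quot hφ (GL.Lf f) hX d hd h.1 h.2

end Pool.Agent.Helper51.JC
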